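import Pool.Agent.helper58.DC.Spec1

/-!
# Project dq: module IRT (transport of irreducible characters along isomorphisms)
-/

set_option autoImplicit false

namespace Pool.Agent.helper30.DC

open Pool.Agent.helper58.DC

/-- subrepresentations do not change under pull back along an isomorphism. -/
def IRT_iso {H K V : Type} [Group H] [Group K] [AddCommGroup V] [Module ℂ V] (e : H ≃* K)
    (ρ : Representation ℂ K V) :
    Subrepresentation ρ ≃o Subrepresentation (ρ.comp e.toMonoidHom) where
  toFun W := ⟨W.toSubmodule, fun h _ hv => W.apply_mem_toSubmodule (e h) hv⟩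
  invFun W := ⟨W.toSubmodule, fun g v hv => by
    have h := W.apply_mem_toSubmodule (e.symm g) hv
    have h2 : (ρ.comp e.toMonoidHom) (e.symm g) = ρ g := by
      show ρ (e (e.symm g)) = ρ g
      rw [MulEquiv.apply_symm_apply]
    rw [h2] at h
    exact h⟩
  left_inv _ := rfl
  right_inv _ := rfl
  map_rel_iff' := Iff.rfl

theorem IRT : IRT_stmt := by
  intro H K _ _ e χ hχ
  obtain ⟨V, i1, i2, i3, ρ, hρ, rfl⟩ := hχ
  exact ⟨V, i1, i2, i3, ρ.comp e.toMonoidHom, (OrderIso.isSimpleOrder_iff (IRT_iso e ρ)).mp hρ, rfl⟩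

end Pool.Agent.helper30.DC
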